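import Pool.Agent.H74.FlatExample

namespace Pool.Agent.Results.MP_bb2d27_ag.InfiniteAut

open Pool.Agent.H74.Flat

/-- **Affirmative answer to Q1.** There is a flat manifold `M = ℝ^m / Γ` with `b_1(M) = 0`
which admits a complex structure and for which `Aut(M, J)` is infinite for every complex
structure `J` on `M`. -/
theorem result : ∃ m : ℕ, HasExample (EuclideanSpace ℝ (Fin m)) :=
  ⟨16, hasExample_Euc⟩

end Pool.Agent.Results.MP_bb2d27_ag.InfiniteAut
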